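import Pool.Agent.helper21.XL.TOP0
import Pool.Agent.helper96.XL.SAW
import Pool.Agent.helper96.XL.SML
import Pool.Agent.helper78.XL.DET
import Pool.Agent.helper17.XL.CRT

/-!
# The reduction modulo `n'` of a family of exact `p`-order `p ^ f`
-/

set_option autoImplicit false

namespace Pool.Agent.helper34.EL

open Finset Pool.Agent.helper34.DH Pool.Agent.helper76.FV

/-- the size of the group of units congruent to `1` modulo `n'` -/
theorem COR_card (n p f n' : ℕ) [NeZero n] [NeZero n'] (hp : p.Prime) (hf : 0 < f)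
    (hn : n = p ^ f * n') (hpn : ¬ p ∣ n') (hd : n' ∣ n) (K : Finset (ZMod n)ˣ)
    (hK : ∀ k, k ∈ K ↔ ZMod.unitsMap hd k = 1) : K.card = p ^ (f - 1) * (p - 1) := by
  classical
  have h1 : Fintype.card (ZMod n)ˣ = ∑ w : (ZMod n')ˣ, K.card := by
    have h2 := Finset.card_eq_sum_card_fiberwise (s := (univ : Finset (ZMod n)ˣ))
      (t := (univ : Finset (ZMod n')ˣ)) (f := fun u => ZMod.unitsMap hd u)
      (fun _ _ => Finset.mem_coe.2 (Finset.mem_univ _))
    rw [← Finset.card_univ, h2]
    refine Finset.sum_congr rfl fun w _ => ?_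
    have hK' : K = univ.filter (fun u => ZMod.unitsMap hd u = 1) := by
      ext k
      rw [hK, Finset.mem_filter]
      simp
    rw [hK']
    exact MonoidHom.card_fiber_eq_of_mem_range (ZMod.unitsMap hd)
      (ZMod.unitsMap_surjective hd w) (ZMod.unitsMap_surjective hd 1)
  rw [Finset.sum_const, Finset.card_univ, smul_eq_mul, ZMod.card_units_eq_totient,
    ZMod.card_units_eq_totient] at h1
  generalize K.card = k at h1 ⊢
  rw [hn, Nat.totient_mul (Nat.Coprime.pow_left _
      ((Nat.Prime.coprime_iff_not_dvd hp).2 hpn)), Nat.totient_prime_pow hp hf, mul_comm] at h1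
  exact (Nat.eq_of_mul_eq_mul_left (Nat.totient_pos.2 (Nat.pos_of_ne_zero (NeZero.ne n')))
    h1).symm

theorem COR_twist {A : Type} [AddCommMonoid A] (n : ℕ) [NeZero n] (q : ℕ) (g : ZMod n → A)
    (hg : DistAt n q g) (u : (ZMod n)ˣ) : DistAt n q (fun x => g ((u : ZMod n) * x)) := by
  intro x
  exact TOP_sum n q g hg u (q * x) x rfl

theorem COR_sub {A : Type} [AddCommGroup A] (n : ℕ) [NeZero n] (q : ℕ) (g h : ZMod n → A)
    (hg : DistAt n q g) (hh : DistAt n q h) : DistAt n q (fun x => g x - h x) := by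
  intro x
  rw [Finset.sum_sub_distrib, hg x, hh x]

/-- integrality of the differences -/
theorem COR_int (n p f n' : ℕ) [NeZero n] [NeZero n'] (hp : p.Prime) (hf : 0 < f)
    (hn : n = p ^ f * n') (hpn : ¬ p ∣ n') {ι : Type} [Fintype ι] (a : ι → ZMod n) (ha : Rel n a)
    (hap : ∀ i, ((n / p : ℕ) : ZMod n) * a i ≠ 0) (e : ZMod n' → ℤ)
    (hodd : ∀ x, e (-x) = -e x) (he : ∀ q : ℕ, q.Prime → q ∣ n' → DistAt n' q e) :
    ∃ G : ℤ, ((p ^ (f - 1) * (p - 1) : ℕ) : ℚ) * G = 2 * ∑ i, (e ((a i).cast : ZMod n') : ℚ) := by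
  classical
  have hd : n' ∣ n := ⟨p ^ f, by rw [hn, mul_comm]⟩
  obtain ⟨g, hg1, hg2, hg3⟩ := lift_avg n p f n' hp hf hn hpn e he
  -- the odd part
  obtain ⟨gm, hgm⟩ : ∃ gm : ZMod n → ℚ, gm = fun x => (g x : ℚ) - (g (-x) : ℚ) := ⟨_, rfl⟩
  have hgd : ∀ q : ℕ, q.Prime → q ∣ n' → DistAt n q (fun x => (g x : ℚ)) := by
    intro q hq hqn x
    have h1 := congrArg (fun z : ℤ => (z : ℚ)) (hg1 q hq hqn x)
    simp only [Int.cast_sum] at h1
    exact h1
  have hneg : ((-1 : (ZMod n)ˣ) : ZMod n) = -1 := by simp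
  have hgmd : ∀ q : ℕ, q.Prime → q ∣ n' → DistAt n q gm := by
    intro q hq hqn
    have h1 := COR_twist n q (fun x => (g x : ℚ)) (hgd q hq hqn) (-1)
    rw [hneg] at h1
    have h2 := COR_sub n q _ _ (hgd q hq hqn) h1
    rw [hgm]
    simpa only [neg_one_mul] using h2
  have hgmodd : ∀ x, gm (-x) = -gm x := by
    intro x
    rw [hgm]
    simp only [neg_neg, neg_sub]
  have hgmsupp : ∀ x : ZMod n, ((n / p : ℕ) : ZMod n) * x = 0 → gm x = 0 := by
    intro x hx
    rw [hgm]
    simp only
    rw [hg2 x hx, hg2 (-x) (by rw [mul_neg, hx, neg_zero])]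
    simp
  have hgmfib : ∀ x : ZMod n, ∑ y ∈ univ.filter
      (fun y : ZMod n => ((p ^ f : ℕ) : ZMod n) * y = ((p ^ f : ℕ) : ZMod n) * x), gm y =
        2 * (e (x.cast : ZMod n') : ℚ) := by
    intro x
    rw [hgm]
    rw [Finset.sum_sub_distrib]
    have h1 : ∑ y ∈ univ.filter
      (fun y : ZMod n => ((p ^ f : ℕ) : ZMod n) * y = ((p ^ f : ℕ) : ZMod n) * x), (g y : ℚ) =
        (e (x.cast : ZMod n') : ℚ) := by
      rw [← hg3 x, Int.cast_sum]
    have h2 : ∑ y ∈ univ.filter
      (fun y : ZMod n => ((p ^ f : ℕ) : ZMod n) * y = ((p ^ f : ℕ) : ZMod n) * x), (g (-y) : ℚ) =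
        -(e (x.cast : ZMod n') : ℚ) := by
      have h3 : ∑ y ∈ univ.filter
        (fun y : ZMod n => ((p ^ f : ℕ) : ZMod n) * y = ((p ^ f : ℕ) : ZMod n) * (-x)), (g y : ℚ) =
          -(e (x.cast : ZMod n') : ℚ) := by
        have h4 := hg3 (-x)
        rw [ZMod.cast_neg hd, hodd] at h4
        have h5 := congrArg (fun z : ℤ => (z : ℚ)) h4
        simp only [Int.cast_sum, Int.cast_neg] at h5
        exact h5
      rw [← h3]
      refine Finset.sum_bij (fun y _ => -y) ?_ ?_ ?_ ?_
      · intro y hy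
        rw [Finset.mem_filter] at hy ⊢
        refine ⟨Finset.mem_univ _, ?_⟩
        rw [mul_neg, hy.2, mul_neg]
      · intro y _ y' _ h
        exact neg_injective h
      · intro y hy
        rw [Finset.mem_filter] at hy
        refine ⟨-y, ?_, neg_neg y⟩
        rw [Finset.mem_filter]
        refine ⟨Finset.mem_univ _, ?_⟩
        rw [mul_neg, hy.2, mul_neg, neg_neg]
      · intro y _; rfl
    rw [h1, h2]; ring
  -- invariance under `K₀`
  let K : Finset (ZMod n)ˣ := univ.filter (fun k => ZMod.unitsMap hd k = 1)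
  have hK : ∀ k, k ∈ K ↔ ZMod.unitsMap hd k = 1 := by
    intro k
    simp [K]
  have hinv : ∀ h ∈ K, ∑ i, gm ((h : ZMod n) * a i) = ∑ i, gm (a i) := by
    intro h hh
    have hcast : ∀ x : ZMod n, (((h : ZMod n) * x).cast : ZMod n') = (x.cast : ZMod n') := by
      intro x
      have h1 := congrArg (fun u : (ZMod n')ˣ => (u : ZMod n')) ((hK h).1 hh)
      have h2 : ((h : ZMod n).cast : ZMod n') = 1 := h1
      rw [ZMod.cast_mul hd, h2, one_mul]
    have h1 := detectB n p f n' hp hf hn hpn (fun x => gm x - gm ((h : ZMod n) * x))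
      (fun x => by rw [mul_neg, hgmodd, hgmodd]; ring)
      (fun q hq hqn => COR_sub n q _ _ (hgmd q hq hqn) (COR_twist n q gm (hgmd q hq hqn) h))
      (fun x hx => by
        rw [hgmsupp x hx, hgmsupp _ (by rw [mul_left_comm, hx, mul_zero]), sub_zero])
      (fun x => by
        rw [Finset.sum_sub_distrib, hgmfib x]
        have h2 : ∑ y ∈ univ.filter
            (fun y : ZMod n => ((p ^ f : ℕ) : ZMod n) * y = ((p ^ f : ℕ) : ZMod n) * x),
              gm ((h : ZMod n) * y) = ∑ y ∈ univ.filter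
            (fun y : ZMod n => ((p ^ f : ℕ) : ZMod n) * y =
              ((p ^ f : ℕ) : ZMod n) * ((h : ZMod n) * x)), gm y := by
          refine Finset.sum_bij (fun y _ => (h : ZMod n) * y) ?_ ?_ ?_ ?_
          · intro y hy
            rw [Finset.mem_filter] at hy ⊢
            refine ⟨Finset.mem_univ _, ?_⟩
            rw [mul_left_comm, hy.2, mul_left_comm]
          · intro y _ y' _ h'
            exact (Units.mul_right_inj h).1 h'
          · intro z hz
            rw [Finset.mem_filter] at hz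
            refine ⟨((h⁻¹ : (ZMod n)ˣ) : ZMod n) * z, ?_, Units.mul_inv_cancel_left h z⟩
            rw [Finset.mem_filter]
            refine ⟨Finset.mem_univ _, ?_⟩
            rw [mul_left_comm, hz.2, mul_left_comm, Units.inv_mul_cancel_left]
          · intro y _; rfl
        rw [h2, hgmfib, hcast, sub_self]) a ha hap
    rw [Finset.sum_sub_distrib, sub_eq_zero] at h1
    exact h1.symm
  have hcard := COR_card n p f n' hp hf hn hpn hd K hK
  -- conclusion
  refine ⟨∑ i, (g (a i) - g (-(a i))), ?_⟩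
  have h1 : ((∑ i, (g (a i) - g (-(a i))) : ℤ) : ℚ) = ∑ i, gm (a i) := by
    rw [hgm]; push_cast; rfl
  rw [h1, ← hcard]
  calc (K.card : ℚ) * ∑ i, gm (a i) = ∑ h ∈ K, ∑ i, gm (a i) := by
        rw [Finset.sum_const, nsmul_eq_mul]
    _ = ∑ h ∈ K, ∑ i, gm ((h : ZMod n) * a i) :=
        Finset.sum_congr rfl fun h hh => (hinv h hh).symm
    _ = ∑ i, ∑ h ∈ K, gm ((h : ZMod n) * a i) := Finset.sum_comm
    _ = ∑ i, 2 * (e ((a i).cast : ZMod n') : ℚ) := by
        refine Finset.sum_congr rfl fun i _ => ?_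
        rw [DET_orbit n p f n' hp hf hn hd gm hgmsupp (a i) (hap i) K hK, hgmfib]
    _ = 2 * ∑ i, (e ((a i).cast : ZMod n') : ℚ) := by rw [Finset.mul_sum]

theorem rel_cast (n p f n' : ℕ) [NeZero n] [NeZero n'] (hp : p.Prime) (hf : 0 < f)
    (hn : n = p ^ f * n') (hpn : ¬ p ∣ n') {ι : Type} [Fintype ι] (a : ι → ZMod n) (ha : Rel n a)
    (hap : ∀ i, ((n / p : ℕ) : ZMod n) * a i ≠ 0)
    (hk : 6 * Fintype.card ι < p ^ (f - 1) * (p - 1)) :
    Rel n' (fun i => ((a i).cast : ZMod n')) := by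
  classical
  intro t
  have hn' : 0 < n' := Nat.pos_of_ne_zero (NeZero.ne n')
  obtain ⟨D, hD⟩ : ∃ D : ℕ, D = p ^ (f - 1) * (p - 1) := ⟨_, rfl⟩
  rw [← hD] at hk
  have hD0 : 0 < D := by omega
  have hDq : (0 : ℚ) < D := by exact_mod_cast hD0
  obtain ⟨H, hH⟩ : ∃ H : ℤ → ℚ, H = fun c : ℤ =>
    ∑ i, saw n' ((c : ZMod n') * ((t : ZMod n') * ((a i).cast : ZMod n'))) := ⟨_, rfl⟩
  have habs : ∀ c, |H c| ≤ (Fintype.card ι : ℚ) / 2 := by
    intro c
    rw [hH]
    refine (Finset.abs_sum_le_sum_abs _ _).trans ?_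
    calc ∑ i, |saw n' ((c : ZMod n') * ((t : ZMod n') * ((a i).cast : ZMod n')))|
        ≤ ∑ _i : ι, (1 / 2 : ℚ) := Finset.sum_le_sum fun i _ => abs_saw_le n' _
      _ = (Fintype.card ι : ℚ) / 2 := by
        rw [Finset.sum_const, Finset.card_univ, nsmul_eq_mul]; ring
  have hz := small_zero n' hn' (fun c => 2 * H c / D) (by
      intro c d
      rw [hH]
      simp only
      congr 2
      refine Finset.sum_congr rfl fun i _ => ?_
      congr 2
      push_cast
      rw [ZMod.natCast_self]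
      ring)
    (by
      intro c hc hcn
      -- `c` is a unit
      have hcu : IsUnit ((c : ZMod n')) := by
        obtain ⟨r, s, hrs⟩ := hcn
        have h5 := congrArg (fun z : ℤ => (z : ZMod n')) hrs
        push_cast at h5
        rw [ZMod.natCast_self, mul_zero, add_zero] at h5
        exact IsUnit.of_mul_eq_one_right _ h5
      obtain ⟨w, hw⟩ := hcu
      have hex : ∀ x : ZMod n', ∃ z : ℤ,
          saw n' ((c : ZMod n') * ((t : ZMod n') * x)) - c * saw n' ((t : ZMod n') * x) = z :=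
        fun x => saw_int n' c hc hcn _
      choose e he using hex
      have hodd : ∀ x, e (-x) = -e x := by
        intro x
        have h1 := he (-x)
        rw [mul_neg, mul_neg, saw_neg, saw_neg] at h1
        have h2 := he x
        have h3 : ((e (-x) : ℤ) : ℚ) = ((-e x : ℤ) : ℚ) := by
          push_cast
          rw [← h1, ← h2]; ring
        exact_mod_cast h3
      have hdist : ∀ q : ℕ, q.Prime → q ∣ n' → DistAt n' q e := by
        intro q _ hqn x
        have h1 := COR_twist n' q (saw n') (saw_dist n' q hqn) (w * t) x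
        have h2 := COR_twist n' q (saw n') (saw_dist n' q hqn) t x
        have h3 : ((∑ y ∈ univ.filter (fun y : ZMod n' => (q : ZMod n') * y = q * x), e y : ℤ) : ℚ)
            = ((e (q * x) : ℤ) : ℚ) := by
          rw [← he (q * x)]
          push_cast
          simp_rw [← he]
          rw [Finset.sum_sub_distrib, ← Finset.mul_sum, h2]
          simp only [Units.val_mul, hw, mul_assoc] at h1
          rw [h1]
        exact_mod_cast h3
      obtain ⟨G, hG⟩ := COR_int n p f n' hp hf hn hpn a ha hap e hodd hdist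
      refine ⟨G, ?_⟩
      rw [← hD] at hG
      have h4 : ∑ i, (e ((a i).cast : ZMod n') : ℚ) = H c - c * H 1 := by
        rw [hH]
        simp only
        rw [Finset.mul_sum, ← Finset.sum_sub_distrib]
        refine Finset.sum_congr rfl fun i _ => ?_
        rw [← he]
        push_cast
        rw [one_mul]
      rw [h4] at hG
      rw [eq_comm, ← mul_left_cancel_iff_of_pos hDq, hG]
      field_simp)
    (by
      intro c _
      rw [abs_div, abs_mul, abs_of_pos hDq, abs_of_pos (by norm_num : (0 : ℚ) < 2),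
        div_lt_iff₀ hDq]
      have h1 := habs c
      have h2 : (6 : ℚ) * Fintype.card ι < D := by exact_mod_cast hk
      linarith)
  have h1 : H 1 = 0 := by
    have h2 : 2 * H 1 / D = 0 := hz
    rw [div_eq_zero_iff] at h2
    rcases h2 with h2 | h2
    · linarith
    · exact absurd h2 hDq.ne'
  rw [hH] at h1
  simp only [Int.cast_one, one_mul] at h1
  exact h1

end Pool.Agent.helper34.EL
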