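import Pool.Agent.helper21.XL.EN0
import Pool.Agent.helper34.XL.CO2

/-!
# The core statement for the universal odd distribution
-/

set_option autoImplicit false

namespace Pool.Agent.helper34.EL

open Finset Pool.Agent.helper34.DH Pool.Agent.helper76.FV

theorem En_core (n p f n' : ℕ) [NeZero n] (hp : p.Prime) (hf : 0 < f) (hn : n = p ^ f * n')
    (hpn : ¬ p ∣ n') {ι : Type} [Fintype ι] (a : ι → ZMod n)
    (ha : Rel n a) (hap : ∀ i, ((n / p : ℕ) : ZMod n) * a i ≠ 0)
    (hk : 6 * Fintype.card ι < p ^ (f - 1) * (p - 1)) : ∑ i, En n (a i) = 0 := by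
  refine CharacterModule.eq_zero_of_character_apply fun c => ?_
  let c' : Qt →+ AddCircle (1 : ℚ) := c
  change c' (∑ i, En n (a i)) = 0
  rw [map_sum]
  refine core n p f n' hp hf hn hpn (fun x => c' (En n x)) (fun x => ?_) (fun q _ hqn => ?_) a ha
    hap hk
  · rw [En_neg, map_neg]
  · intro x
    have hq : q ∣ n := by rw [hn]; exact dvd_mul_of_dvd_right hqn _
    have h1 := En_dist n q hq x
    change ∑ y ∈ univ.filter (fun y : ZMod n => (q : ZMod n) * y = q * x), c' (En n y) =
      c' (En n (q * x))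
    rw [← h1, map_sum]

end Pool.Agent.helper34.EL
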