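import Pool.Agent.helper34.EL.Defs

/-!
# The universal odd distribution is an odd distribution
-/

set_option autoImplicit false

namespace Pool.Agent.helper34.EL

open Finset Pool.Agent.helper34.DH Pool.Agent.helper76.FV

theorem EN_hh : hh + hh = 0 := by
  have := hh_two
  rwa [two_smul] at this

theorem EN_neg_hh : -hh = hh := by
  rw [neg_eq_iff_add_eq_zero]; exact EN_hh

theorem EN_nsmul_hh (c : ℕ) : c • hh = if Odd c then hh else 0 := by
  have h := zsmul_hh (c : ℤ)
  rw [natCast_zsmul] at h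
  rw [h]
  congr 1
  exact propext (Int.odd_coe_nat c)

/-- the value at a rational point depends only on its class -/
theorem EN_eq (n : ℕ) [NeZero n] (x : ZMod n) (j : ℤ) (h : (j : ZMod n) = x) :
    En n x = F ((j : ℚ) / n) + hh := by
  unfold En
  congr 1
  apply F_congr
  subst h
  have hn : (n : ℚ) ≠ 0 := by exact_mod_cast NeZero.ne n
  refine ⟨-(j / n), ?_⟩
  have h2 : (((j : ZMod n).val : ℕ) : ℤ) = j % n := by
    rw [ZMod.val_intCast]
  have h3 : (((j : ZMod n).val : ℕ) : ℚ) = ((j % n : ℤ) : ℚ) := by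
    rw [← h2]; simp
  rw [h3]
  have h4 := Int.emod_add_mul_ediv j n
  have h5 : ((j % n : ℤ) : ℚ) + n * ((j / n : ℤ) : ℚ) = j := by exact_mod_cast h4
  push_cast
  field_simp
  linarith

theorem En_neg (n : ℕ) [NeZero n] (x : ZMod n) : En n (-x) = -En n x := by
  have h1 : En n (-x) = F (((-(x.val : ℤ) : ℤ) : ℚ) / n) + hh := by
    apply EN_eq
    push_cast
    rw [ZMod.natCast_zmod_val]
  rw [h1]
  unfold En
  rw [show (((-(x.val : ℤ) : ℤ) : ℚ) / n) = -((x.val : ℚ) / n) by push_cast; ring, F_neg,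
    neg_add, EN_neg_hh]

/-- distribution relation over `ℚ` -/
theorem EN_distQ (n : ℕ) (hn : 0 < n) :
    ∀ x : ℚ, ∑ i ∈ range n, (F (x + i / n) + hh) = F (n * x) + hh := by
  induction n using Nat.recOnMul with
  | zero => exact absurd hn (lt_irrefl _)
  | one => intro x; simp
  | prime p hp =>
    intro x
    rcases hp.eq_two_or_odd' with rfl | hodd
    · rw [Finset.sum_range_succ, Finset.sum_range_succ, Finset.sum_range_zero, zero_add]
      have := dist_two x
      push_cast
      rw [zero_div, add_zero]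
      calc F x + hh + (F (x + 1 / 2) + hh) = (F x + F (x + 1 / 2)) + (hh + hh) := by abel
        _ = F (2 * x) + hh := by rw [this, EN_hh, add_zero]
    · rw [Finset.sum_add_distrib, Finset.sum_const, Finset.card_range, dist_odd p hp hodd x,
        EN_nsmul_hh, if_pos hodd]
  | mul a b ha hb =>
    have ha0 : 0 < a := Nat.pos_of_ne_zero (by rintro rfl; simp at hn)
    have hb0 : 0 < b := Nat.pos_of_ne_zero (by rintro rfl; simp at hn)
    have hca := ha ha0
    have hcb := hb hb0
    intro x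
    have haq : (a : ℚ) ≠ 0 := by exact_mod_cast ha0.ne'
    have hbq : (b : ℚ) ≠ 0 := by exact_mod_cast hb0.ne'
    have h1 : ∑ i ∈ range (a * b), (F (x + i / ((a * b : ℕ) : ℚ)) + hh) =
        ∑ u ∈ range a, ∑ v ∈ range b, (F ((x + u / (a * b)) + v / b) + hh) := by
      rw [← Finset.sum_product']
      refine Finset.sum_nbij' (fun i => (i % a, i / a)) (fun q => q.1 + a * q.2) ?_ ?_ ?_ ?_ ?_
      · intro i hi
        rw [Finset.mem_range] at hi
        rw [Finset.mem_product, Finset.mem_range, Finset.mem_range]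
        exact ⟨Nat.mod_lt _ ha0, Nat.div_lt_of_lt_mul hi⟩
      · rintro ⟨u, v⟩ hq
        rw [Finset.mem_product, Finset.mem_range, Finset.mem_range] at hq
        rw [Finset.mem_range]
        calc u + a * v < a + a * v := by omega
          _ = a * (v + 1) := by ring
          _ ≤ a * b := Nat.mul_le_mul_left _ hq.2
      · intro i _
        exact Nat.mod_add_div i a
      · rintro ⟨u, v⟩ hq
        rw [Finset.mem_product, Finset.mem_range, Finset.mem_range] at hq
        simp only [Prod.mk.injEq]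
        refine ⟨?_, ?_⟩
        · rw [Nat.add_mul_mod_self_left, Nat.mod_eq_of_lt hq.1]
        · rw [Nat.add_mul_div_left _ _ ha0, Nat.div_eq_of_lt hq.1, zero_add]
      · intro i _
        congr 2
        have h2 : (i : ℚ) = (i % a : ℕ) + a * (i / a : ℕ) := by
          exact_mod_cast (Nat.mod_add_div i a).symm
        rw [add_assoc]
        congr 1
        rw [h2]
        push_cast
        field_simp
    rw [h1]
    simp_rw [hcb]
    have h2 : ∀ u : ℕ, (b : ℚ) * (x + u / (a * b)) = b * x + u / a := by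
      intro u; field_simp
    simp_rw [h2]
    rw [hca (b * x)]
    rw [show (a : ℚ) * (b * x) = ((a * b : ℕ) : ℚ) * x by push_cast; ring]

/-- the fibre of multiplication by a divisor `q` of `n` -/
theorem EN_fib {A : Type} [AddCommMonoid A] (n : ℕ) [NeZero n] (q : ℕ) (hq : q ∣ n)
    (g : ZMod n → A) (x : ZMod n) :
    ∑ y ∈ univ.filter (fun y : ZMod n => (q : ZMod n) * y = q * x), g y =
      ∑ l ∈ range q, g (x + ((l * (n / q) : ℕ) : ZMod n)) := by
  obtain ⟨m, hm⟩ := hq
  have hn : 0 < n := Nat.pos_of_ne_zero (NeZero.ne n)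
  have hq0 : 0 < q := Nat.pos_of_ne_zero (by rintro rfl; simp at hm; omega)
  have hm0 : 0 < m := Nat.pos_of_ne_zero (by rintro rfl; simp at hm; omega)
  have hnq : n / q = m := by rw [hm]; exact Nat.mul_div_cancel_left m hq0
  rw [hnq]
  symm
  refine Finset.sum_bij (fun l _ => x + ((l * m : ℕ) : ZMod n)) ?_ ?_ ?_ ?_
  · intro l _
    rw [Finset.mem_filter]
    refine ⟨Finset.mem_univ _, ?_⟩
    rw [mul_add, ← Nat.cast_mul, show q * (l * m) = l * n by rw [hm]; ring]
    simp
  · intro l hl l' hl' h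
    rw [Finset.mem_range] at hl hl'
    have h1 := add_left_cancel h
    have h2 := (ZMod.natCast_eq_natCast_iff' _ _ n).1 h1
    have h3 : ∀ l, l < q → l * m < n := by
      intro l hl
      rw [hm]
      exact Nat.mul_lt_mul_of_pos_right hl hm0
    rw [Nat.mod_eq_of_lt (h3 l hl), Nat.mod_eq_of_lt (h3 l' hl')] at h2
    exact Nat.eq_of_mul_eq_mul_right hm0 h2
  · intro y hy
    rw [Finset.mem_filter] at hy
    have h1 : ((q * (y - x).val : ℕ) : ZMod n) = 0 := by
      rw [Nat.cast_mul, ZMod.natCast_zmod_val, mul_sub, hy.2, sub_self]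
    rw [ZMod.natCast_eq_zero_iff] at h1
    have h2 : m ∣ (y - x).val := Nat.dvd_of_mul_dvd_mul_left hq0 ((dvd_of_eq hm.symm).trans h1)
    obtain ⟨l, hl⟩ := h2
    refine ⟨l, ?_, ?_⟩
    · rw [Finset.mem_range]
      have h3 : (y - x).val < n := ZMod.val_lt _
      rw [hl, hm, mul_comm q m] at h3
      exact Nat.lt_of_mul_lt_mul_left h3
    · rw [mul_comm, ← hl, ZMod.natCast_zmod_val]
      ring
  · intro l _; rfl

theorem En_dist (n : ℕ) [NeZero n] (q : ℕ) (hq : q ∣ n) : DistAt n q (En n) := by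
  intro x
  rw [EN_fib n q hq]
  have hn : 0 < n := Nat.pos_of_ne_zero (NeZero.ne n)
  obtain ⟨m, hm⟩ := hq
  have hq0 : 0 < q := Nat.pos_of_ne_zero (by rintro rfl; simp at hm; omega)
  have hm0 : 0 < m := Nat.pos_of_ne_zero (by rintro rfl; simp at hm; omega)
  have hnq : n / q = m := by rw [hm]; exact Nat.mul_div_cancel_left m hq0
  have hqq : (q : ℚ) ≠ 0 := by exact_mod_cast hq0.ne'
  have hmq : (m : ℚ) ≠ 0 := by exact_mod_cast hm0.ne'
  have hnn : (n : ℚ) = q * m := by exact_mod_cast hm
  rw [hnq]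
  have h1 : ∀ l ∈ range q, En n (x + ((l * m : ℕ) : ZMod n)) =
      F ((x.val : ℚ) / n + l / q) + hh := by
    intro l _
    rw [EN_eq n (x + ((l * m : ℕ) : ZMod n)) ((x.val + l * m : ℕ) : ℤ)
      (by push_cast; rw [ZMod.natCast_zmod_val])]
    congr 2
    push_cast
    rw [hnn]
    field_simp
  rw [Finset.sum_congr rfl h1, EN_distQ q hq0]
  rw [EN_eq n ((q : ZMod n) * x) ((q * x.val : ℕ) : ℤ)
    (by push_cast; rw [ZMod.natCast_zmod_val])]
  congr 2
  push_cast
  ring

end Pool.Agent.helper34.EL
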