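import Mathlib

/-!
# A power of a prime dividing `(12k)!`
-/

set_option autoImplicit false

namespace Pool.Agent.helper34.EL

open Finset

theorem pow_dvd_fact (p k j : ℕ) (hp : p.Prime) (hk : 2 ≤ k) (hpk : p ≤ 6 * k + 1) (hj : 0 < j)
    (hj' : p ^ (j - 1) * (p - 1) ≤ 6 * k) : p ^ (j + 3 * k / (p - 1)) ∣ (12 * k).factorial := by
  have hp2 := hp.two_le
  set t := 3 * k / (p - 1) with ht
  have hp1 : 0 < p - 1 := by omega
  -- `p ^ i ≤ 12 k` for `i ≤ j`
  have hpj : p ^ j ≤ 12 * k := by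
    obtain ⟨i, rfl⟩ : ∃ i, j = i + 1 := ⟨j - 1, by omega⟩
    simp only [Nat.add_sub_cancel] at hj'
    rw [pow_succ]
    have h1 : p ≤ 2 * (p - 1) := by omega
    calc p ^ i * p ≤ p ^ i * (2 * (p - 1)) := Nat.mul_le_mul_left _ h1
      _ = 2 * (p ^ i * (p - 1)) := by ring
      _ ≤ 2 * (6 * k) := Nat.mul_le_mul_left _ hj'
      _ = 12 * k := by ring
  have hpi : ∀ i, i ≤ j → p ^ i ≤ 12 * k := fun i hi =>
    (Nat.pow_le_pow_right (by omega) hi).trans hpj
  have htp : t * (p - 1) ≤ 3 * k := Nat.div_mul_le_self _ _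
  have h1 : t + 1 ≤ 12 * k / p := by
    rw [Nat.le_div_iff_mul_le (by omega)]
    rcases Nat.eq_zero_or_pos t with h0 | h0
    · rw [h0]; omega
    · have h2 : (t + 1) * p ≤ (2 * t) * (2 * (p - 1)) := Nat.mul_le_mul (by omega) (by omega)
      calc (t + 1) * p ≤ (2 * t) * (2 * (p - 1)) := h2
        _ = 4 * (t * (p - 1)) := by ring
        _ ≤ 4 * (3 * k) := Nat.mul_le_mul_left _ htp
        _ = 12 * k := by ring
  have hlog : Nat.log p (12 * k) < 12 * k + j + 1 :=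
    lt_of_le_of_lt (Nat.log_le_self _ _) (by omega)
  rw [hp.pow_dvd_factorial_iff hlog]
  have hsub : Finset.Ico 1 (j + 1) ⊆ Finset.Ico 1 (12 * k + j + 1) := by
    intro i hi
    rw [Finset.mem_Ico] at hi ⊢
    omega
  refine le_trans ?_ (Finset.sum_le_sum_of_subset hsub)
  rw [Finset.sum_eq_sum_Ico_succ_bot (by omega : 1 < j + 1), pow_one]
  have h3 : j - 1 ≤ ∑ i ∈ Finset.Ico (1 + 1) (j + 1), 12 * k / p ^ i := by
    calc j - 1 = ∑ i ∈ Finset.Ico (1 + 1) (j + 1), 1 := by simp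
      _ ≤ _ := by
        refine Finset.sum_le_sum fun i hi => ?_
        rw [Finset.mem_Ico] at hi
        rw [Nat.one_le_div_iff (by positivity)]
        exact hpi i (by omega)
  omega

end Pool.Agent.helper34.EL
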