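import Pool.Agent.helper21.XL.TOP0
import Pool.Agent.helper21.XL.EN
import Pool.Agent.helper96.XL.SAW

/-!
# The core statement at all levels
-/

set_option autoImplicit false

namespace Pool.Agent.helper34.EL

open Finset Pool.Agent.helper34.DH Pool.Agent.helper76.FV

theorem En_top (n p f n' j : ℕ) [NeZero n] (hp : p.Prime) (hn : n = p ^ f * n')
    (hpn : ¬ p ∣ n') {ι : Type} [Fintype ι] (a : ι → ZMod n)
    (ha : Rel n a) (hap : ∀ i, ((p ^ j * n' : ℕ) : ZMod n) * a i ≠ 0)
    (hk : 6 * Fintype.card ι < p ^ j * (p - 1)) : ∑ i, En n (a i) = 0 := by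
  classical
  obtain ⟨d, hd⟩ : ∃ d, d = f - j := ⟨_, rfl⟩
  induction d generalizing j ι with
  | zero =>
    rcases isEmpty_or_nonempty ι with hι | ⟨⟨i⟩⟩
    · simp
    · exfalso
      apply hap i
      have h1 : ((p ^ j * n' : ℕ) : ZMod n) = 0 := by
        rw [ZMod.natCast_eq_zero_iff, hn]
        exact Nat.mul_dvd_mul_right (pow_dvd_pow p (by omega)) n'
      rw [h1, zero_mul]
  | succ d ih =>
    have hjf : j < f := by omega
    rcases Nat.lt_or_ge (j + 1) f with hj1 | hj1
    · -- refine the entries killed by `p ^ (j + 1) n'`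
      have hfib : ∀ i, ∃ T : Finset (ZMod n), T.card ≤ p ∧
          (∀ y ∈ T, ((p ^ (j + 1) * n' : ℕ) : ZMod n) * y ≠ 0) ∧
          ∀ (A : Type) [AddCommMonoid A] (g : ZMod n → A) (_ : DistAt n p g) (u : (ZMod n)ˣ),
            ∑ y ∈ T, g ((u : ZMod n) * y) = g ((u : ZMod n) * a i) := by
        intro i
        by_cases hi : ((p ^ (j + 1) * n' : ℕ) : ZMod n) * a i = 0
        · obtain ⟨y0, hy0⟩ := TOP_div n p (p ^ (f - 1) * n')
            (by rw [← mul_assoc, ← pow_succ', Nat.sub_add_cancel (by omega), hn]) (a i) (by
              obtain ⟨c, hc⟩ : p ^ (j + 1) * n' ∣ p ^ (f - 1) * n' :=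
                Nat.mul_dvd_mul_right (pow_dvd_pow p (by omega)) n'
              rw [hc, mul_comm (p ^ (j + 1) * n') c, Nat.cast_mul, mul_assoc, hi, mul_zero])
          refine ⟨univ.filter (fun y : ZMod n => (p : ZMod n) * y = a i), TOP_card n p hp.pos _,
            ?_, ?_⟩
          · intro y hy
            rw [Finset.mem_filter] at hy
            have h1 := hap i
            rw [← hy.2, ← mul_assoc, ← Nat.cast_mul] at h1
            rwa [show p ^ (j + 1) * n' = p ^ j * n' * p by rw [pow_succ]; ring]
          · intro A _ g hg u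
            exact TOP_sum n p g hg u (a i) y0 hy0
        · refine ⟨{a i}, ?_, ?_, ?_⟩
          · rw [Finset.card_singleton]; exact hp.pos
          · intro y hy
            rw [Finset.mem_singleton] at hy
            rwa [hy]
          · intro A _ g _ u
            rw [Finset.sum_singleton]
      choose T hT1 hT2 hT3 using hfib
      let ι' : Type := Σ i : ι, {y : ZMod n // y ∈ T i}
      let b : ι' → ZMod n := fun x => x.2.1
      have hsum : ∀ (A : Type) [AddCommMonoid A] (g : ZMod n → A) (_ : DistAt n p g)
          (u : (ZMod n)ˣ), ∑ x : ι', g ((u : ZMod n) * b x) = ∑ i, g ((u : ZMod n) * a i) := by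
        intro A _ g hg u
        rw [Fintype.sum_sigma]
        refine Finset.sum_congr rfl fun i _ => ?_
        rw [← hT3 i A g hg u]
        exact Finset.sum_coe_sort (T i) (fun y => g ((u : ZMod n) * y))
      have hpn1 : p ∣ n := by
        rw [hn]
        exact dvd_mul_of_dvd_left (dvd_pow_self p (by omega)) _
      have hb : Rel n b := by
        intro u
        rw [hsum ℚ (saw n) (saw_dist n p hpn1) u]
        exact ha u
      have hcard : Fintype.card ι' ≤ p * Fintype.card ι := by
        rw [Fintype.card_sigma]
        calc ∑ i, Fintype.card {y : ZMod n // y ∈ T i} ≤ ∑ _i : ι, p := by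
              refine Finset.sum_le_sum fun i _ => ?_
              rw [Fintype.card_coe]
              exact hT1 i
          _ = p * Fintype.card ι := by rw [Finset.sum_const, Finset.card_univ, smul_eq_mul, mul_comm]
      have h1 := ih (j + 1) b hb (fun x => hT2 x.1 x.2.1 x.2.2) (by
        calc 6 * Fintype.card ι' ≤ 6 * (p * Fintype.card ι) := Nat.mul_le_mul_left _ hcard
          _ = p * (6 * Fintype.card ι) := by ring
          _ < p * (p ^ j * (p - 1)) := Nat.mul_lt_mul_of_pos_left hk hp.pos
          _ = p ^ (j + 1) * (p - 1) := by rw [pow_succ]; ring) (by omega)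
      have h2 := hsum Qt (En n) (En_dist n p hpn1) 1
      simp only [Units.val_one, one_mul] at h2
      rw [← h2]
      exact h1
    · have hfj : f = j + 1 := by omega
      subst hfj
      have hnp : n / p = p ^ j * n' := by
        rw [hn, pow_succ, mul_right_comm]
        exact Nat.mul_div_cancel _ hp.pos
      refine En_core n p (j + 1) n' hp (by omega) hn hpn a ha ?_ ?_
      · rw [hnp]; exact hap
      · simpa using hk

end Pool.Agent.helper34.EL
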