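import Pool.Agent.helper21.XL.EN0

/-!
# Fibres of multiplication by a divisor
-/

set_option autoImplicit false

namespace Pool.Agent.helper34.EL

open Finset Pool.Agent.helper34.DH Pool.Agent.helper76.FV

/-- the number of solutions of `p y = x` -/
theorem TOP_card (n : ℕ) [NeZero n] (p : ℕ) (hp : 0 < p) (x : ZMod n) :
    (univ.filter (fun y : ZMod n => (p : ZMod n) * y = x)).card ≤ p := by
  rcases (univ.filter (fun y : ZMod n => (p : ZMod n) * y = x)).eq_empty_or_nonempty with h | h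
  · rw [h]; simp
  · obtain ⟨y0, hy0⟩ := h
    rw [Finset.mem_filter] at hy0
    refine le_trans ?_ (IsAddCyclic.card_nsmul_eq_zero_le (α := ZMod n) hp)
    refine Finset.card_le_card_of_injOn (fun y => y - y0) ?_ ?_
    · intro y hy
      rw [Finset.coe_filter, Set.mem_ofPred_eq] at hy ⊢
      refine ⟨Finset.mem_univ _, ?_⟩
      rw [nsmul_eq_mul, mul_sub, hy.2, hy0.2, sub_self]
    · intro y _ y' _ h
      exact sub_left_injective h

/-- solvability of `p y = x` -/
theorem TOP_div (n p : ℕ) [NeZero n] (m : ℕ) (hn : n = p * m) (x : ZMod n)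
    (hx : (m : ZMod n) * x = 0) : ∃ y : ZMod n, (p : ZMod n) * y = x := by
  have hn0 : 0 < n := Nat.pos_of_ne_zero (NeZero.ne n)
  have hm0 : 0 < m := Nat.pos_of_ne_zero (by rintro rfl; simp at hn; omega)
  have h1 : ((m * x.val : ℕ) : ZMod n) = 0 := by
    rw [Nat.cast_mul, ZMod.natCast_zmod_val, hx]
  rw [ZMod.natCast_eq_zero_iff] at h1
  have h2 : p ∣ x.val :=
    Nat.dvd_of_mul_dvd_mul_left hm0 ((dvd_of_eq (by rw [hn, mul_comm])).trans h1)
  obtain ⟨l, hl⟩ := h2
  refine ⟨(l : ZMod n), ?_⟩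
  rw [← Nat.cast_mul, ← hl, ZMod.natCast_zmod_val]

/-- the twisted fibre sum of a distribution -/
theorem TOP_sum {A : Type} [AddCommMonoid A] (n : ℕ) [NeZero n] (p : ℕ) (g : ZMod n → A)
    (hg : DistAt n p g) (u : (ZMod n)ˣ) (x y0 : ZMod n) (hy0 : (p : ZMod n) * y0 = x) :
    ∑ y ∈ univ.filter (fun y : ZMod n => (p : ZMod n) * y = x), g ((u : ZMod n) * y) =
      g ((u : ZMod n) * x) := by
  have h1 := hg ((u : ZMod n) * y0)
  rw [show (p : ZMod n) * ((u : ZMod n) * y0) = (u : ZMod n) * x by rw [← hy0]; ring] at h1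
  rw [← h1]
  refine Finset.sum_bij (fun y _ => (u : ZMod n) * y) ?_ ?_ ?_ ?_
  · intro y hy
    rw [Finset.mem_filter] at hy ⊢
    refine ⟨Finset.mem_univ _, ?_⟩
    rw [← hy.2]; ring
  · intro y _ y' _ h
    exact (Units.mul_right_inj u).1 h
  · intro z hz
    rw [Finset.mem_filter] at hz
    refine ⟨((u⁻¹ : (ZMod n)ˣ) : ZMod n) * z, ?_, ?_⟩
    · rw [Finset.mem_filter]
      refine ⟨Finset.mem_univ _, ?_⟩
      calc (p : ZMod n) * (((u⁻¹ : (ZMod n)ˣ) : ZMod n) * z)
          = ((u⁻¹ : (ZMod n)ˣ) : ZMod n) * (p * z) := by ring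
        _ = x := by rw [hz.2, Units.inv_mul_cancel_left]
    · exact Units.mul_inv_cancel_left u z
  · intro y _; rfl

end Pool.Agent.helper34.EL
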